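import Mathlib
import Pool.Agent.Q285.StableT

set_option autoImplicit false

/-! The consecutive pattern 12435 is stable. -/

namespace Pool.Agent.Results.MP_5514a7_co.StablePattern

open Finset

/-- the factor of `w` of length `l` starting at (zero based) position `j` is order isomorphic
to `p` -/
def OccursAt {l m n : ℕ} (p : Equiv.Perm (Fin l)) (w : Fin m → Fin n) (j : ℕ) : Prop :=
  ∃ h : j + l ≤ m, ∀ a b : Fin l, w ⟨j + a, by omega⟩ < w ⟨j + b, by omega⟩ ↔ p a < p b

open Classical in
/-- the number of occurrences of `p` in `w` -/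
noncomputable def occ {l m n : ℕ} (p : Equiv.Perm (Fin l)) (w : Fin m → Fin n) : ℕ :=
  ((range (m + 1)).filter (fun j => OccursAt p w j)).card

/-- `Words k p s`: the permutations of the multiset with `k i` copies of the letter `i`
(words of length `∑ i, k i` in which each letter `i` appears `k i` times) having exactly `s`
occurrences of the consecutive pattern `p` -/
def Words {l n : ℕ} (k : Fin n → ℕ) (p : Equiv.Perm (Fin l)) (s : ℕ) :
    Set (Fin (∑ i, k i) → Fin n) :=
  {w | (∀ i, (univ.filter (fun q => w q = i)).card = k i) ∧ occ p w = s}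

/-- `p` is stable: the number of multiset permutations with exactly `s` occurrences of `p` is
invariant under permuting the multiplicities -/
def Stable {l : ℕ} (p : Equiv.Perm (Fin l)) : Prop :=
  ∀ (n : ℕ) (k : Fin n → ℕ) (σ : Equiv.Perm (Fin n)) (s : ℕ),
    (Words k p s).ncard = (Words (fun i => k (σ i)) p s).ncard

/-- the pattern 12435 -/
def pat : Equiv.Perm (Fin 5) := ⟨![0, 1, 3, 2, 4], ![0, 1, 3, 2, 4], by decide, by decide⟩

section

variable {m n : ℕ}

/-- extension by zero -/
def V (w : Fin m → Fin n) (q : ℕ) : ℕ := if h : q < m then (w ⟨q, h⟩ : ℕ) else 0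

/-- the inequalities at position `j` -/
def C5 (w : Fin m → Fin n) (j : ℕ) : Prop :=
  V w j < V w (j + 1) ∧ V w (j + 1) < V w (j + 3) ∧ V w (j + 3) < V w (j + 2) ∧
    V w (j + 2) < V w (j + 4)

lemma V_eq (w : Fin m → Fin n) {q : ℕ} (h : q < m) : V w q = (w ⟨q, h⟩ : ℕ) := by
  unfold V; rw [dif_pos h]

lemma occursAt_iff (w : Fin m → Fin n) (j : ℕ) : OccursAt pat w j ↔ j + 5 ≤ m ∧ C5 w j := by
  unfold OccursAt C5
  constructor
  · rintro ⟨h, H⟩
    refine ⟨h, ?_⟩
    rw [V_eq w (q := j) (by omega), V_eq w (q := j + 1) (by omega), V_eq w (q := j + 2) (by omega),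
      V_eq w (q := j + 3) (by omega), V_eq w (q := j + 4) (by omega)]
    refine ⟨?_, ?_, ?_, ?_⟩
    · exact (H 0 1).2 (by decide)
    · exact (H 1 3).2 (by decide)
    · exact (H 3 2).2 (by decide)
    · exact (H 2 4).2 (by decide)
  · rintro ⟨h, H⟩
    rw [V_eq w (q := j) (by omega), V_eq w (q := j + 1) (by omega), V_eq w (q := j + 2) (by omega),
      V_eq w (q := j + 3) (by omega), V_eq w (q := j + 4) (by omega)] at H
    refine ⟨h, ?_⟩
    obtain ⟨h1, h2, h3, h4⟩ := H
    have key : ∀ a : Fin 5, (w ⟨j + a, by omega⟩ : ℕ) =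
        ![(w ⟨j, by omega⟩ : ℕ), w ⟨j + 1, by omega⟩, w ⟨j + 2, by omega⟩, w ⟨j + 3, by omega⟩,
          w ⟨j + 4, by omega⟩] a := by
      intro a
      fin_cases a <;> rfl
    intro a b
    rw [Fin.lt_def, key a, key b]
    generalize (w ⟨j, by omega⟩ : ℕ) = x0 at *
    generalize (w ⟨j + 1, by omega⟩ : ℕ) = x1 at *
    generalize (w ⟨j + 2, by omega⟩ : ℕ) = x2 at *
    generalize (w ⟨j + 3, by omega⟩ : ℕ) = x3 at *
    generalize (w ⟨j + 4, by omega⟩ : ℕ) = x4 at *
    clear key
    fin_cases a <;> fin_cases b <;> simp [pat] <;> omega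

variable (S : Finset ℕ)

/-- swap `j + 2` and `j + 3` for `j ∈ S` -/
def sw (q : ℕ) : ℕ := if 2 ≤ q ∧ q - 2 ∈ S then q + 1 else if 3 ≤ q ∧ q - 3 ∈ S then q - 1 else q

/-- the gap between `a` and `a + 1` is covered -/
def cov (a : ℕ) : Prop := ∃ j ∈ S, j ≤ a ∧ a ≤ j + 3

/-- same cluster -/
def cl (q q' : Fin m) : Prop := ∀ a : ℕ, min (q : ℕ) q' ≤ a → a < max (q : ℕ) q' → cov S a

/-- no two starting positions at distance 1 or 2 -/
def Valid : Prop := ∀ j ∈ S, ∀ j' ∈ S, j' ≠ j + 1 ∧ j' ≠ j + 2

variable {S}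

lemma sw_cases (q : ℕ) : (∃ j ∈ S, q = j + 2 ∧ sw S q = j + 3) ∨
    (∃ j ∈ S, q = j + 3 ∧ sw S q = j + 2) ∨
    ((∀ j ∈ S, q ≠ j + 2 ∧ q ≠ j + 3) ∧ sw S q = q) := by
  unfold sw
  split_ifs with h1 h2
  · left
    exact ⟨q - 2, h1.2, by omega, by omega⟩
  · right; left
    exact ⟨q - 3, h2.2, by omega, by omega⟩
  · right; right
    refine ⟨fun j hj => ⟨?_, ?_⟩, rfl⟩
    · rintro rfl
      exact h1 ⟨by omega, by simpa using hj⟩
    · rintro rfl
      exact h2 ⟨by omega, by simpa using hj⟩

lemma sw_add_two {j : ℕ} (hj : j ∈ S) : sw S (j + 2) = j + 3 := by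
  rcases sw_cases (S := S) (j + 2) with ⟨i, hi, h1, h2⟩ | ⟨i, hi, h1, h2⟩ | ⟨h1, h2⟩
  · omega
  · exfalso
    unfold sw at h2
    rw [if_pos ⟨by omega, by simpa using hj⟩] at h2
    omega
  · exact absurd rfl (h1 j hj).1

lemma sw_add_three (hV : Valid S) {j : ℕ} (hj : j ∈ S) : sw S (j + 3) = j + 2 := by
  rcases sw_cases (S := S) (j + 3) with ⟨i, hi, h1, h2⟩ | ⟨i, hi, h1, h2⟩ | ⟨h1, h2⟩
  · have := (hV j hj i hi).1; omega
  · omega
  · exact absurd rfl (h1 j hj).2

lemma sw_add_one (hV : Valid S) {j : ℕ} (hj : j ∈ S) : sw S (j + 1) = j + 1 := by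
  rcases sw_cases (S := S) (j + 1) with ⟨i, hi, h1, h2⟩ | ⟨i, hi, h1, h2⟩ | ⟨h1, h2⟩
  · have := (hV i hi j hj).1; omega
  · have := (hV i hi j hj).2; omega
  · exact h2

lemma sw_add_four (hV : Valid S) {j : ℕ} (hj : j ∈ S) : sw S (j + 4) = j + 4 := by
  rcases sw_cases (S := S) (j + 4) with ⟨i, hi, h1, h2⟩ | ⟨i, hi, h1, h2⟩ | ⟨h1, h2⟩
  · have := (hV j hj i hi).2; omega
  · have := (hV j hj i hi).1; omega
  · exact h2

lemma sw_self (hV : Valid S) {j : ℕ} (hj : j ∈ S) :
    sw S j = j ∨ ∃ i ∈ S, j = i + 3 ∧ sw S j = i + 2 := by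
  rcases sw_cases (S := S) j with ⟨i, hi, h1, h2⟩ | ⟨i, hi, h1, h2⟩ | ⟨h1, h2⟩
  · have := (hV i hi j hj).2; omega
  · exact Or.inr ⟨i, hi, h1, h2⟩
  · exact Or.inl h2

lemma sw_sw (hV : Valid S) (q : ℕ) : sw S (sw S q) = q := by
  rcases sw_cases (S := S) q with ⟨i, hi, h1, h2⟩ | ⟨i, hi, h1, h2⟩ | ⟨h1, h2⟩
  · rw [h2, sw_add_three hV hi, h1]
  · rw [h2, sw_add_two hi, h1]
  · rw [h2, h2]

lemma sw_inj (hV : Valid S) : Function.Injective (fun q : Fin m => sw S (q : ℕ)) := by
  intro q q' h
  have := congrArg (sw S) h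
  simp only [sw_sw hV] at this
  exact Fin.ext this

lemma cl_equiv : Equivalence (cl S (m := m)) := by
  refine ⟨?_, ?_, ?_⟩
  · intro q a h1 h2; rw [min_self] at h1; rw [max_self] at h2; omega
  · intro q q' h a h1 h2; exact h a (by rwa [min_comm]) (by rwa [max_comm])
  · intro q q' q'' h h' a h1 h2
    by_cases h3 : min (q : ℕ) q' ≤ a ∧ a < max (q : ℕ) q'
    · exact h a h3.1 h3.2
    · exact h' a (by omega) (by omega)

lemma step (hV : Valid S) {w : Fin m → Fin n} (hw : ∀ j ∈ S, C5 w j) {t : ℕ} (ht : cov S t) :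
    V w (sw S t) < V w (sw S (t + 1)) := by
  obtain ⟨j, hj, h1, h2⟩ := ht
  have h3 : t = j ∨ t = j + 1 ∨ t = j + 2 ∨ t = j + 3 := by omega
  obtain ⟨c1, c2, c3, c4⟩ := hw j hj
  rcases h3 with rfl | rfl | rfl | rfl
  · rw [sw_add_one hV hj]
    rcases sw_self hV hj with h | ⟨i, hi, h, h'⟩
    · rw [h]; exact c1
    · rw [h', h]
      exact (hw i hi).2.2.2
  · rw [sw_add_one hV hj, show j + 1 + 1 = j + 2 from rfl, sw_add_two hj]; exact c2
  · rw [sw_add_two hj, show j + 2 + 1 = j + 3 from rfl, sw_add_three hV hj]; exact c3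
  · rw [sw_add_three hV hj, show j + 3 + 1 = j + 4 from rfl, sw_add_four hV hj]; exact c4

lemma steps (hV : Valid S) {w : Fin m → Fin n} (hw : ∀ j ∈ S, C5 w j) {a : ℕ} :
    ∀ b, a < b → (∀ t, a ≤ t → t < b → cov S t) → V w (sw S a) < V w (sw S b) := by
  intro b
  induction b with
  | zero => intro h; omega
  | succ b ih =>
    intro h hc
    rcases (Nat.lt_succ_iff.1 h).eq_or_lt with h1 | h1
    · subst h1
      exact step hV hw (hc a le_rfl h)
    · exact (ih h1 (fun t h2 h3 => hc t h2 (by omega))).trans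
        (step hV hw (hc b h1.le (Nat.lt_succ_self b)))

open Pool.Agent.Q285.StableT

lemma inc_iff (hV : Valid S) (hm : ∀ j ∈ S, j + 5 ≤ m) (w : Fin m → Fin n) :
    (∀ j ∈ S, C5 w j) ↔ Inc (cl S) (fun q : Fin m => sw S (q : ℕ)) w := by
  constructor
  · intro hw q q' hqq hlt
    simp only at hlt
    have h1 : ∀ t, sw S (q : ℕ) ≤ t → t < sw S (q' : ℕ) → cov S t := by
      intro t h1 h2
      by_cases h3 : min (q : ℕ) q' ≤ t ∧ t < max (q : ℕ) q'
      · exact hqq t h3.1 h3.2
      · rcases sw_cases (S := S) (q : ℕ) with ⟨i, hi, g1, g2⟩ | ⟨i, hi, g1, g2⟩ | ⟨g1, g2⟩ <;>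
        rcases sw_cases (S := S) (q' : ℕ) with ⟨i', hi', g1', g2'⟩ | ⟨i', hi', g1', g2'⟩ | ⟨g1', g2'⟩
        · exact ⟨i', hi', by omega, by omega⟩
        · omega
        · omega
        · by_cases h4 : t = i + 2
          · exact ⟨i, hi, by omega, by omega⟩
          · exact ⟨i', hi', by omega, by omega⟩
        · exact ⟨i, hi, by omega, by omega⟩
        · exact ⟨i, hi, by omega, by omega⟩
        · exact ⟨i', hi', by omega, by omega⟩
        · omega
        · omega
    have h2 := steps hV hw (sw S (q' : ℕ)) hlt h1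
    rw [sw_sw hV, sw_sw hV, V_eq w q.2, V_eq w q'.2] at h2
    exact h2
  · intro hw j hj
    have hjm := hm j hj
    have key : ∀ a b : ℕ, a < m → b < m → j ≤ a → a ≤ j + 4 → j ≤ b → b ≤ j + 4 →
        sw S a < sw S b → V w a < V w b := by
      intro a b ha hb h1 h2 h3 h4 h5
      rw [V_eq w ha, V_eq w hb]
      refine hw ⟨a, ha⟩ ⟨b, hb⟩ ?_ h5
      intro t h6 h7
      exact ⟨j, hj, by simp only at h6; omega, by simp only at h7; omega⟩
    have s0 : sw S j ≤ j := by
      rcases sw_self hV hj with h | ⟨i, hi, h, h'⟩ <;> omega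
    have s1 := sw_add_one hV hj
    have s2 := sw_add_two hj
    have s3 := sw_add_three hV hj
    have s4 := sw_add_four hV hj
    refine ⟨?_, ?_, ?_, ?_⟩ <;> apply key <;> omega

open Classical in
/-- the set of occurrences -/
noncomputable def O (w : Fin m → Fin n) : Finset ℕ := (range (m + 1)).filter (fun j => OccursAt pat w j)

open Classical in
lemma mem_O (w : Fin m → Fin n) (j : ℕ) : j ∈ O w ↔ j + 5 ≤ m ∧ C5 w j := by
  unfold O
  rw [mem_filter, mem_range, occursAt_iff]
  constructor
  · exact fun h => h.2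
  · exact fun h => ⟨by omega, h⟩

/-- words with prescribed content containing `S` in the set of occurrences -/
lemma N_swap (S : Finset ℕ) {x y : Fin n} (hxy : (x : ℕ) + 1 = y) (k : Fin n → ℕ) :
    {w : Fin m → Fin n | content w = k ∧ S ⊆ O w}.ncard =
      {w : Fin m → Fin n | content w = (fun i => k (Equiv.swap x y i)) ∧ S ⊆ O w}.ncard := by
  by_cases hm : ∀ j ∈ S, j + 5 ≤ m
  · by_cases hV : Valid S
    · have e : ∀ k : Fin n → ℕ, {w : Fin m → Fin n | content w = k ∧ S ⊆ O w} =
          {w : Fin m → Fin n | Inc (cl S) (fun q : Fin m => sw S (q : ℕ)) w ∧ content w = k} := by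
        intro k
        ext w
        simp only [Set.mem_ofPred_eq]
        rw [← inc_iff hV hm]
        constructor
        · rintro ⟨h1, h2⟩
          exact ⟨fun j hj => ((mem_O w j).1 (h2 hj)).2, h1⟩
        · rintro ⟨h1, h2⟩
          exact ⟨h2, fun j hj => (mem_O w j).2 ⟨hm j hj, h1 j hj⟩⟩
      rw [e, e]
      exact card_swap cl_equiv (sw_inj hV) hxy k
    · have e : ∀ k : Fin n → ℕ, {w : Fin m → Fin n | content w = k ∧ S ⊆ O w} = ∅ := by
        intro k
        rw [Set.eq_empty_iff_forall_notMem]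
        rintro w ⟨-, h2⟩
        apply hV
        intro j hj j' hj'
        obtain ⟨-, c1, c2, c3, c4⟩ := (mem_O w j).1 (h2 hj)
        obtain ⟨-, d1, d2, d3, d4⟩ := (mem_O w j').1 (h2 hj')
        constructor
        · rintro rfl
          have : j + 1 + 1 = j + 2 := rfl
          rw [show j + 1 + 1 = j + 2 from rfl] at d1 d2
          rw [show j + 1 + 3 = j + 4 from rfl] at d2 d3
          rw [show j + 1 + 2 = j + 3 from rfl] at d3 d4
          omega
        · rintro rfl
          rw [show j + 2 + 1 = j + 3 from rfl] at d1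
          omega
      rw [e, e]
  · have e : ∀ k : Fin n → ℕ, {w : Fin m → Fin n | content w = k ∧ S ⊆ O w} = ∅ := by
      intro k
      rw [Set.eq_empty_iff_forall_notMem]
      rintro w ⟨-, h2⟩
      exact hm (fun j hj => ((mem_O w j).1 (h2 hj)).1)
    rw [e, e]

open Classical in
/-- words with prescribed content and prescribed set of occurrences -/
lemma M_swap {x y : Fin n} (hxy : (x : ℕ) + 1 = y) (k : Fin n → ℕ) : ∀ (c : ℕ) (S : Finset ℕ),
    S ⊆ range (m + 1) → (range (m + 1) \ S).card = c →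
    (univ.filter (fun w : Fin m → Fin n => content w = k ∧ O w = S)).card =
      (univ.filter (fun w : Fin m → Fin n =>
        content w = (fun i => k (Equiv.swap x y i)) ∧ O w = S)).card := by
  intro c
  induction c using Nat.strong_induction_on with
  | _ c ih =>
    intro S hS hc
    have hdec : ∀ k : Fin n → ℕ, {w : Fin m → Fin n | content w = k ∧ S ⊆ O w}.ncard =
        (univ.filter (fun w : Fin m → Fin n => content w = k ∧ O w = S)).card +
        ∑ S' ∈ ((range (m + 1)).powerset.filter (fun S' => S ⊂ S')),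
          (univ.filter (fun w : Fin m → Fin n => content w = k ∧ O w = S')).card := by
      intro k
      have h1 : {w : Fin m → Fin n | content w = k ∧ S ⊆ O w}.ncard =
          (univ.filter (fun w : Fin m → Fin n => content w = k ∧ S ⊆ O w)).card := by
        rw [← Set.ncard_coe_finset]
        congr 1
        ext w; simp
      rw [h1]
      have h2 : S ∉ ((range (m + 1)).powerset.filter (fun S' => S ⊂ S')) := by
        simp
      rw [← Finset.sum_insert (f := fun S' =>
        (univ.filter (fun w : Fin m → Fin n => content w = k ∧ O w = S')).card) h2]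
      rw [Finset.card_eq_sum_card_fiberwise (f := O)
        (t := insert S ((range (m + 1)).powerset.filter (fun S' => S ⊂ S')))]
      · apply Finset.sum_congr rfl
        intro S' hS'
        congr 1
        ext w
        simp only [mem_filter, mem_univ, true_and]
        constructor
        · rintro ⟨⟨h3, -⟩, h4⟩; exact ⟨h3, h4⟩
        · rintro ⟨h3, h4⟩
          refine ⟨⟨h3, ?_⟩, h4⟩
          rw [h4]
          rcases Finset.mem_insert.1 hS' with h5 | h5
          · rw [h5]
          · exact (Finset.mem_filter.1 h5).2.1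
      · intro w hw
        simp only [coe_filter, mem_univ, true_and, Set.mem_ofPred_eq] at hw
        rw [Finset.mem_coe, Finset.mem_insert, Finset.mem_filter, Finset.mem_powerset]
        by_cases h3 : O w = S
        · exact Or.inl h3
        · right
          exact ⟨Finset.filter_subset _ _, hw.2.ssubset_of_ne (Ne.symm h3)⟩
    have h1 := N_swap (m := m) S hxy k
    rw [hdec, hdec] at h1
    have h2 : ∑ S' ∈ ((range (m + 1)).powerset.filter (fun S' => S ⊂ S')),
          (univ.filter (fun w : Fin m → Fin n => content w = k ∧ O w = S')).card =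
        ∑ S' ∈ ((range (m + 1)).powerset.filter (fun S' => S ⊂ S')),
          (univ.filter (fun w : Fin m → Fin n =>
            content w = (fun i => k (Equiv.swap x y i)) ∧ O w = S')).card := by
      apply Finset.sum_congr rfl
      intro S' hS'
      rw [Finset.mem_filter, Finset.mem_powerset] at hS'
      apply ih (range (m + 1) \ S').card _ S' hS'.1 rfl
      rw [← hc]
      apply Finset.card_lt_card
      rw [Finset.ssubset_iff_subset_ne]
      refine ⟨Finset.sdiff_subset_sdiff (Finset.Subset.refl _) hS'.2.1, ?_⟩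
      intro h3
      apply hS'.2.ne
      apply Finset.Subset.antisymm hS'.2.1
      intro a ha
      by_contra h4
      have h5 : a ∈ range (m + 1) \ S := Finset.mem_sdiff.2 ⟨hS'.1 ha, h4⟩
      rw [← h3] at h5
      exact (Finset.mem_sdiff.1 h5).2 ha
    omega

open Classical in
/-- words with prescribed content and prescribed number of occurrences -/
lemma A_swap {x y : Fin n} (hxy : (x : ℕ) + 1 = y) (k : Fin n → ℕ) (s : ℕ) :
    (univ.filter (fun w : Fin m → Fin n => content w = k ∧ occ pat w = s)).card =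
      (univ.filter (fun w : Fin m → Fin n =>
        content w = (fun i => k (Equiv.swap x y i)) ∧ occ pat w = s)).card := by
  have h : ∀ k : Fin n → ℕ,
      (univ.filter (fun w : Fin m → Fin n => content w = k ∧ occ pat w = s)).card =
      ∑ S ∈ (range (m + 1)).powersetCard s,
        (univ.filter (fun w : Fin m → Fin n => content w = k ∧ O w = S)).card := by
    intro k
    rw [Finset.card_eq_sum_card_fiberwise (f := O) (t := (range (m + 1)).powersetCard s)]
    · apply Finset.sum_congr rfl
      intro S hS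
      congr 1
      ext w
      simp only [mem_filter, mem_univ, true_and]
      constructor
      · rintro ⟨⟨h3, -⟩, h4⟩; exact ⟨h3, h4⟩
      · rintro ⟨h3, h4⟩
        refine ⟨⟨h3, ?_⟩, h4⟩
        have h5 : occ pat w = (O w).card := rfl
        rw [h5, h4]
        exact (Finset.mem_powersetCard.1 hS).2
    · intro w hw
      simp only [coe_filter, mem_univ, true_and, Set.mem_ofPred_eq] at hw
      rw [Finset.mem_coe, Finset.mem_powersetCard]
      exact ⟨Finset.filter_subset _ _, hw.2⟩
  rw [h, h]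
  apply Finset.sum_congr rfl
  intro S hS
  exact M_swap hxy k _ S (Finset.mem_powersetCard.1 hS).1 rfl

end

open Classical in
/-- invariance under an arbitrary permutation of the letters -/
lemma A_perm {m n : ℕ} (σ : Equiv.Perm (Fin n)) : ∀ (k : Fin n → ℕ) (s : ℕ),
    (univ.filter (fun w : Fin m → Fin n =>
      Pool.Agent.Q285.StableT.content w = k ∧ occ pat w = s)).card =
      (univ.filter (fun w : Fin m → Fin n =>
        Pool.Agent.Q285.StableT.content w = (fun i => k (σ i)) ∧ occ pat w = s)).card := by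
  cases n with
  | zero =>
    intro k s
    have : (fun i => k (σ i)) = k := by funext i; exact i.elim0
    rw [this]
  | succ n =>
    have hσ : σ ∈ Submonoid.closure (Set.range fun i : Fin n =>
        Equiv.swap i.castSucc i.succ) := by
      rw [Equiv.Perm.mclosure_swap_castSucc_succ]
      exact Submonoid.mem_top _
    induction hσ using Submonoid.closure_induction with
    | mem τ hτ =>
      obtain ⟨i, rfl⟩ := hτ
      intro k s
      exact A_swap (by simp) k s
    | one => intro k s; rfl
    | mul τ τ' _ _ h1 h2 =>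
      intro k s
      rw [h1 k s, h2 (fun i => k (τ i)) s]
      rfl

lemma words_ncard {m n : ℕ} (k : Fin n → ℕ) (s : ℕ) (hm : m = ∑ i, k i) :
    (Words k pat s).ncard = {w : Fin m → Fin n |
      Pool.Agent.Q285.StableT.content w = k ∧ occ pat w = s}.ncard := by
  subst hm
  congr 1
  ext w
  simp only [Words, Set.mem_ofPred_eq]
  rw [funext_iff]
  rfl

lemma stable_pat : Stable pat := by
  classical
  intro n k σ s
  rw [words_ncard (m := ∑ i, k i) k s rfl,
    words_ncard (m := ∑ i, k i) (fun i => k (σ i)) s (Equiv.sum_comp σ k).symm]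
  have h := A_perm (m := ∑ i, k i) σ k s
  rw [← Set.ncard_coe_finset, ← Set.ncard_coe_finset] at h
  simpa using h

/-- There is a consecutive pattern (12435) with distinct letters that is not monotone but
stable. -/
theorem result : ∃ (l : ℕ) (p : Equiv.Perm (Fin l)), ¬ StrictMono p ∧ ¬ StrictAnti p ∧
    Stable p := by
  refine ⟨5, pat, ?_, ?_, stable_pat⟩
  · intro h
    have := h (show (2 : Fin 5) < 3 by decide)
    revert this; decide
  · intro h
    have := h (show (0 : Fin 5) < 1 by decide)
    revert this; decide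

end Pool.Agent.Results.MP_5514a7_co.StablePattern
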